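import Mathlib

/-!
# Formulas with NOT gates
-/

set_option autoImplicit false

namespace Pool.Agent.W953.FN

/-- Formulas in `n` variables: variables, constants, AND, OR, NOT. -/
inductive Formula (n : ℕ) : Type
  | var (i : Fin n) : Formula n
  | const (b : Bool) : Formula n
  | and (φ ψ : Formula n) : Formula n
  | or (φ ψ : Formula n) : Formula n
  | not (φ : Formula n) : Formula n

namespace Formula

variable {n : ℕ}

/-- the value on the input `x` -/
def eval : Formula n → (Fin n → Bool) → Bool
  | var i, x => x i
  | const b, _ => b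
  | and φ ψ, x => φ.eval x && ψ.eval x
  | or φ ψ, x => φ.eval x || ψ.eval x
  | not φ, x => !(φ.eval x)

/-- the number of leaves that are variables -/
def leaves : Formula n → ℕ
  | var _ => 1
  | const _ => 0
  | and φ ψ => φ.leaves + ψ.leaves
  | or φ ψ => φ.leaves + ψ.leaves
  | not φ => φ.leaves

/-- the number of NOT gates -/
def nots : Formula n → ℕ
  | var _ => 0
  | const _ => 0
  | and φ ψ => φ.nots + ψ.nots
  | or φ ψ => φ.nots + ψ.nots
  | not φ => φ.nots + 1

/-- the number of gates -/
def size : Formula n → ℕ
  | var _ => 0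
  | const _ => 0
  | and φ ψ => φ.size + ψ.size + 1
  | or φ ψ => φ.size + ψ.size + 1
  | not φ => φ.size + 1

/-- the depth -/
def depth : Formula n → ℕ
  | var _ => 0
  | const _ => 0
  | and φ ψ => max φ.depth ψ.depth + 1
  | or φ ψ => max φ.depth ψ.depth + 1
  | not φ => φ.depth + 1

end Formula

end Pool.Agent.W953.FN
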