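import Mathlib
import Pool.Agent.W953.FN.Defs
import Pool.Agent.W953.SR.Core
import Pool.Agent.H560R2.Fm3
import Pool.Agent.H540R2.Lift.NegDefs

/-!
# Formulas and circuits with few NOT gates as computations in rounds
-/

set_option autoImplicit false

namespace Pool.Agent.W953.FN

open Finset Pool.Agent.W953.SP Pool.Agent.W953.SR Pool.Agent.H560R2

/-- tests: monotone formulas, with the number of leaves -/
abbrev FT (I : Type) : Type := {p : ℕ × ((I → Bool) → Bool) // ML (pbase I) p.1 p.2}

/-- the tests -/
def ftTests (I : Type) : Tests (FT I) I where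
  acc P x := P.1.2 x = true
  size P := P.1.1

lemma ft_mono (I : Type) : Prog.Mono (ftTests I) := by
  intro P x y hxy h
  have h1 := ML.le_of_le P.2 x y (fun i => by
    by_cases hx : x i = true
    · rw [hx, hxy i hx]
    · rw [Bool.not_eq_true] at hx
      rw [hx]
      exact Bool.false_le _)
  have h2 : P.1.2 x = true := h
  rw [h2] at h1
  exact top_le_iff.mp h1

lemma ft_rank (I : Type) : RankTests (ftTests I) := by
  intro P
  refine ⟨ℚ, inferInstance, fun X Y _ _ _ _ A α β U _ hU hβ m hm => ?_⟩
  have key := rank_leaves A α β m (B := pbase I) (by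
    intro b hb
    rcases hb with ⟨c, rfl⟩ | ⟨i, rfl⟩
    · have : Pool.Agent.H560R2.mask A (fun _ => c) (fun _ => !c) = 0 := by
        ext x y
        simp only [Pool.Agent.H560R2.mask, Matrix.of_apply, Matrix.zero_apply]
        cases c <;> simp
      rw [this, Matrix.rank_zero]
      exact Nat.zero_le _
    · refine le_trans (le_of_eq ?_) (hm i)
      congr 1
      ext x y
      simp only [Pool.Agent.H560R2.mask, SP.mask, Matrix.of_apply, Bool.not_eq_true']) P.2
    (fun x => decide (U x)) (fun _ => true) (fun x hx => hU x (of_decide_eq_true hx)) (fun y _ => by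
      have := hβ y
      exact Bool.eq_false_iff.mpr this)
  refine le_trans (le_of_eq ?_) key
  congr 1
  ext x y
  simp only [Pool.Agent.H560R2.mask, SP.mask, Matrix.of_apply, decide_eq_true_eq]

/-- the constant test -/
def cst (I : Type) (c : Bool) : FT I := ⟨(0, fun _ => c), ML.const c⟩

/-- the formula with arbitrary gates -/
def toGF {n : ℕ} : Formula n → GF (Fin n)
  | .var i => .var i
  | .const b => .any 0 (fun _ => b) (fun i => i.elim0)
  | .and φ ψ => .and (toGF φ) (toGF ψ)
  | .or φ ψ => .or (toGF φ) (toGF ψ)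
  | .not φ => .any 1 (fun v => !(v 0)) (fun _ => toGF φ)

lemma toGF_eval {n : ℕ} (φ : Formula n) (x : Fin n → Bool) : (toGF φ).eval x = φ.eval x := by
  induction φ with
  | var i => rfl
  | const b => rfl
  | and a b iha ihb => simp only [toGF, GF.eval, Formula.eval, iha, ihb]
  | or a b iha ihb => simp only [toGF, GF.eval, Formula.eval, iha, ihb]
  | not a ih => simp only [toGF, GF.eval, Formula.eval, ih]

lemma toGF_leaves {n : ℕ} (φ : Formula n) : (toGF φ).leaves = φ.leaves := by
  induction φ with
  | var i => rfl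
  | const b => simp [toGF, GF.leaves, Formula.leaves]
  | and a b iha ihb => simp only [toGF, GF.leaves, Formula.leaves, iha, ihb]
  | or a b iha ihb => simp only [toGF, GF.leaves, Formula.leaves, iha, ihb]
  | not a ih => simp [toGF, GF.leaves, Formula.leaves, ih]

lemma toGF_free {n : ℕ} (φ : Formula n) : (toGF φ).free = φ.nots := by
  induction φ with
  | var i => rfl
  | const b => simp [toGF, GF.free, Formula.nots]
  | and a b iha ihb => simp only [toGF, GF.free, Formula.nots, iha, ihb]
  | or a b iha ihb => simp only [toGF, GF.free, Formula.nots, iha, ihb]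
  | not a ih => simp [toGF, GF.free, Formula.nots, ih]; omega

/-- A formula with `t` NOT gates is a computation in one round with `5 t + 1` tests. -/
theorem formula_prog {n : ℕ} (φ : Formula n) : ∃ p : Prog (FT (Fin n)),
    p.cost ≤ 5 * φ.nots + 2 ∧ p.load (ftTests _) ≤ 2 * φ.leaves ∧
    ∀ x, p.Acc (ftTests _) x ↔ φ.eval x = true := by
  classical
  obtain ⟨P, h1, h2, h3, h4⟩ := GF.good (toGF φ)
  rw [toGF_free] at h2
  rw [toGF_leaves] at h3
  obtain ⟨Q, hQ⟩ : ∃ Q : Fin P.length → FT (Fin n), Q = fun i => ⟨P.get i, h1 _ (P.get_mem i)⟩ :=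
    ⟨_, rfl⟩
  refine ⟨.ask P.length Q (fun a => .out (cst _ (decide (∃ x, Prog.ans (ftTests _) Q x = a ∧
    φ.eval x = true)))), ?_, ?_, fun x => ?_⟩
  · show (P.length + 1) * (univ.sup fun _ => 1) ≤ _
    have : (univ.sup fun _ : Fin P.length → Bool => 1) ≤ 1 := Finset.sup_le (fun _ _ => le_rfl)
    calc (P.length + 1) * (univ.sup fun _ : Fin P.length → Bool => 1) ≤ (P.length + 1) * 1 :=
          Nat.mul_le_mul_left _ this
      _ ≤ 5 * φ.nots + 2 := by omega
  · show ∑ i, (ftTests (Fin n)).size (Q i) + (univ.sup fun _ => 0) ≤ _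
    have e1 : (univ.sup fun _ : Fin P.length → Bool => 0) ≤ 0 := Finset.sup_le (fun _ _ => le_rfl)
    have e2 : ∑ i, (ftTests (Fin n)).size (Q i) = (P.map Prod.fst).sum := by
      rw [hQ]
      have : ∀ i : Fin P.length, (ftTests (Fin n)).size ⟨P.get i, h1 _ (P.get_mem i)⟩ =
        (P.get i).1 := fun _ => rfl
      simp only [this]
      rw [← List.sum_ofFn]
      congr 1
      exact (List.map_ofFn (f := P.get) (g := Prod.fst)).symm.trans (by rw [List.ofFn_get])
    omega
  · show (cst (Fin n) _).1.2 x = true ↔ _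
    show decide _ = true ↔ _
    rw [decide_eq_true_iff]
    constructor
    · rintro ⟨y, hy, hyv⟩
      have : (toGF φ).eval x = (toGF φ).eval y := h4 x y (fun p hp => by
        obtain ⟨i, rfl⟩ := List.get_of_mem hp
        have e := congrFun hy i
        have h5 := Prog.ans_iff (𝒯 := ftTests (Fin n)) Q x i
        have h6 := Prog.ans_iff (𝒯 := ftTests (Fin n)) Q y i
        rw [e] at h6
        have h7 : (ftTests (Fin n)).acc (Q i) x ↔ (ftTests (Fin n)).acc (Q i) y := h5.symm.trans h6
        have h8 : ∀ z, (ftTests (Fin n)).acc (Q i) z ↔ (P.get i).2 z = true := by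
          intro z
          rw [hQ]
          exact Iff.rfl
        rw [h8, h8] at h7
        exact Bool.eq_iff_iff.mpr h7)
      rw [toGF_eval, toGF_eval] at this
      rw [this]
      exact hyv
    · intro h
      exact ⟨x, rfl, h⟩

end Pool.Agent.W953.FN
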