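import Mathlib
import Pool.Agent.W953.FN.Conv

/-!
# Circuits with few NOT gates as computations in rounds
-/

set_option autoImplicit false

namespace Pool.Agent.W953.FN

open Finset Pool.Agent.W953.SP Pool.Agent.W953.SR Pool.Agent.H560R2 Pool.Agent.H540R2

variable {n : ℕ}

/-- the value of gate `i` if the values of the NOT gates are `ν` -/
def fval (C : Circuit n) (ν : ℕ → Bool) (x : Fin n → Bool) : ℕ → Bool
  | i => if (C.gate i).isNot = true then ν i else
      (C.gate i).eval x (fun j => if _h : j < i then fval C ν x j else false)
termination_by i => i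

lemma fval_eq (C : Circuit n) (ν : ℕ → Bool) (x : Fin n → Bool) (i : ℕ) :
    fval C ν x i = if (C.gate i).isNot = true then ν i else
      (C.gate i).eval x (fun j => if j < i then fval C ν x j else false) := by
  rw [fval]
  simp only [dite_eq_ite]

lemma val_eq (C : Circuit n) (x : Fin n → Bool) (i : ℕ) :
    C.val x i = (C.gate i).eval x (fun j => if j < i then C.val x j else false) := by
  rw [Circuit.val]
  simp only [dite_eq_ite]

lemma dep_eq (C : Circuit n) (i : ℕ) :
    C.gateDepth i = (C.gate i).depth (fun j => if j < i then C.gateDepth j else 0) := by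
  rw [Circuit.gateDepth]
  simp only [dite_eq_ite]

/-- there is a monotone formula with at most `2 ^ d` leaves -/
def MF (d : ℕ) (f : (Fin n → Bool) → Bool) : Prop := ∃ m ≤ 2 ^ d, ML (pbase (Fin n)) m f

lemma MF.mono {d d' : ℕ} {f : (Fin n → Bool) → Bool} (h : MF d f) (hd : d ≤ d') : MF d' f := by
  obtain ⟨m, h1, h2⟩ := h
  exact ⟨m, h1.trans (Nat.pow_le_pow_right (by norm_num) hd), h2⟩

lemma MF.and {d : ℕ} {f g : (Fin n → Bool) → Bool} (hf : MF d f) (hg : MF d g) :
    MF (d + 1) (fun x => f x && g x) := by
  obtain ⟨m, h1, h2⟩ := hf
  obtain ⟨k, k1, k2⟩ := hg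
  exact ⟨m + k, by rw [pow_succ]; omega, ML.and h2 k2⟩

lemma MF.or {d : ℕ} {f g : (Fin n → Bool) → Bool} (hf : MF d f) (hg : MF d g) :
    MF (d + 1) (fun x => f x || g x) := by
  obtain ⟨m, h1, h2⟩ := hf
  obtain ⟨k, k1, k2⟩ := hg
  exact ⟨m + k, by rw [pow_succ]; omega, ML.or h2 k2⟩

lemma MF.node {C : Circuit n} {ν : ℕ → Bool} {i : ℕ}
    (ih : ∀ j < i, MF (C.gateDepth j) (fun x => fval C ν x j)) (a : Node n) :
    MF (a.depth (fun j => if j < i then C.gateDepth j else 0))
      (fun x => a.eval x (fun j => if j < i then fval C ν x j else false)) := by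
  cases a with
  | var v => exact ⟨1, Nat.one_le_two_pow, ML.leaf (Or.inr ⟨v, rfl⟩)⟩
  | const b => exact ⟨0, Nat.zero_le _, ML.const b⟩
  | gate j =>
    simp only [Node.depth, Node.eval]
    by_cases hj : j < i
    · simp only [if_pos hj]
      exact ih j hj
    · simp only [if_neg hj]
      exact ⟨0, Nat.zero_le _, ML.const false⟩

lemma MF.gate (C : Circuit n) (ν : ℕ → Bool) (i : ℕ) :
    MF (C.gateDepth i) (fun x => fval C ν x i) := by
  induction i using Nat.strong_induction_on with
  | _ i ih =>
    have e : (fun x => fval C ν x i) = fun x => if (C.gate i).isNot = true then ν i else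
        (C.gate i).eval x (fun j => if j < i then fval C ν x j else false) := by
      funext x
      exact fval_eq C ν x i
    rw [e, dep_eq]
    cases hg : C.gate i with
    | and a b =>
      simp only [Gate.isNot, Gate.eval, Gate.depth]
      exact MF.and ((MF.node ih a).mono (le_max_left _ _)) ((MF.node ih b).mono (le_max_right _ _))
    | or a b =>
      simp only [Gate.isNot, Gate.eval, Gate.depth]
      exact MF.or ((MF.node ih a).mono (le_max_left _ _)) ((MF.node ih b).mono (le_max_right _ _))
    | not a =>
      simp only [Gate.isNot, if_true]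
      exact ⟨0, Nat.zero_le _, ML.const _⟩

lemma MF.out (C : Circuit n) (ν : ℕ → Bool) (a : Node n) :
    MF (a.depth C.gateDepth) (fun x => a.eval x (fun j => fval C ν x j)) := by
  cases a with
  | var v => exact ⟨1, Nat.one_le_two_pow, ML.leaf (Or.inr ⟨v, rfl⟩)⟩
  | const b => exact ⟨0, Nat.zero_le _, ML.const b⟩
  | gate j => exact MF.gate C ν j

/-- the test for a node -/
noncomputable def tst (C : Circuit n) (ν : ℕ → Bool) (a : Node n) : FT (Fin n) :=
  ⟨((MF.out C ν a).choose, fun x => a.eval x (fun j => fval C ν x j)), (MF.out C ν a).choose_spec.2⟩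

lemma tst_size (C : Circuit n) (ν : ℕ → Bool) (a : Node n) :
    (ftTests (Fin n)).size (tst C ν a) ≤ 2 ^ a.depth C.gateDepth := (MF.out C ν a).choose_spec.1

/-- If the NOT gates of depth at most `Δ` before `i` have the right values, so has the gate `i`. -/
lemma fval_right (C : Circuit n) (ν : ℕ → Bool) (x : Fin n → Bool) (Δ k : ℕ)
    (hν : ∀ j < k, (C.gate j).isNot = true → C.gateDepth j ≤ Δ → ν j = C.val x j) :
    ∀ i < k, C.gateDepth i ≤ Δ → fval C ν x i = C.val x i := by
  intro i
  induction i using Nat.strong_induction_on with
  | _ i ih =>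
    intro hik hd
    have hnode : ∀ a : Node n, a.depth (fun j => if j < i then C.gateDepth j else 0) ≤ Δ →
        a.eval x (fun j => if j < i then fval C ν x j else false) =
        a.eval x (fun j => if j < i then C.val x j else false) := by
      intro a ha
      cases a with
      | var v => rfl
      | const b => rfl
      | gate j =>
        simp only [Node.eval]
        by_cases hj : j < i
        · simp only [if_pos hj]
          simp only [Node.depth, if_pos hj] at ha
          exact ih j hj (by omega) ha
        · simp only [if_neg hj]
    rw [dep_eq] at hd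
    rw [fval_eq]
    by_cases hn : (C.gate i).isNot = true
    · rw [if_pos hn]
      refine hν i hik hn ?_
      rw [dep_eq]
      exact hd
    · rw [if_neg hn, val_eq]
      cases hg : C.gate i with
      | and a b =>
        rw [hg] at hd
        simp only [Gate.depth] at hd
        simp only [Gate.eval]
        rw [hnode a (by omega), hnode b (by omega)]
      | or a b =>
        rw [hg] at hd
        simp only [Gate.depth] at hd
        simp only [Gate.eval]
        rw [hnode a (by omega), hnode b (by omega)]
      | not a =>
        rw [hg] at hn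
        exact absurd rfl hn

/-- the node under a NOT gate -/
def sub : Gate n → Node n
  | .and a _ => a
  | .or a _ => a
  | .not a => a

/-- the number of NOT gates from `k` on -/
def cnt (C : Circuit n) (k r : ℕ) : ℕ :=
  ((Finset.Ico k (k + r)).filter (fun i => (C.gate i).isNot = true)).card

lemma cnt_succ (C : Circuit n) (k r : ℕ) :
    cnt C k (r + 1) = (if (C.gate k).isNot = true then 1 else 0) + cnt C (k + 1) r := by
  unfold cnt
  have e : Finset.Ico k (k + (r + 1)) = insert k (Finset.Ico (k + 1) (k + 1 + r)) := by
    ext j
    simp only [Finset.mem_Ico, Finset.mem_insert]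
    omega
  rw [e, Finset.filter_insert]
  by_cases h : (C.gate k).isNot = true
  · rw [if_pos h, if_pos h, Finset.card_insert_of_notMem (by simp)]
    omega
  · rw [if_neg h, if_neg h, Nat.zero_add]

lemma prog_aux (C : Circuit n) (Δ : ℕ) (hΔ : C.depth ≤ Δ) (r : ℕ) :
    ∀ (k : ℕ), k + r = C.size → ∀ ν : ℕ → Bool, ∃ p : Prog (FT (Fin n)),
      p.cost ≤ 2 ^ cnt C k r ∧ p.load (ftTests _) ≤ (cnt C k r + 1) * 2 ^ Δ ∧
      ∀ x, (∀ j < k, (C.gate j).isNot = true → C.gateDepth j ≤ Δ → ν j = C.val x j) →
        (p.Acc (ftTests _) x ↔ C.eval x = true) := by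
  classical
  induction r with
  | zero =>
    intro k hk ν
    refine ⟨.out (tst C ν C.out), Nat.one_le_two_pow, ?_, fun x hx => ?_⟩
    · refine (tst_size C ν C.out).trans ?_
      calc 2 ^ C.depth ≤ 2 ^ Δ := Nat.pow_le_pow_right (by norm_num) hΔ
        _ ≤ (cnt C k 0 + 1) * 2 ^ Δ := Nat.le_mul_of_pos_left _ (by omega)
    · show C.out.eval x (fun j => fval C ν x j) = true ↔ C.out.eval x (C.val x) = true
      cases ho : C.out with
      | var v => exact Iff.rfl
      | const b => exact Iff.rfl
      | gate j =>
        have hj : j < k := by
          have := C.out_lt j (by rw [ho]; simp [Node.wires])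
          omega
        have hd : C.gateDepth j ≤ Δ := by
          have : C.depth = C.gateDepth j := by
            unfold Circuit.depth
            rw [ho]
            rfl
          omega
        simp only [Node.eval]
        rw [fval_right C ν x Δ k hx j hj hd]
  | succ r ih =>
    intro k hk ν
    by_cases hn : (C.gate k).isNot = true
    · by_cases hd : C.gateDepth k ≤ Δ
      · have hih := fun ν' => ih (k + 1) (by omega) ν'
        choose P p1 p2 p3 using hih
        refine ⟨.ask 1 (fun _ => tst C ν (sub (C.gate k)))
          (fun a => P (Function.update ν k (!(a 0)))), ?_, ?_, fun x hx => ?_⟩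
        · show (1 + 1) * (univ.sup fun a : Fin 1 → Bool => (P (Function.update ν k (!(a 0)))).cost) ≤ _
          rw [cnt_succ, if_pos hn, pow_add, pow_one]
          exact Nat.mul_le_mul_left 2 (Finset.sup_le (fun a _ => p1 _))
        · show ∑ i : Fin 1, (ftTests (Fin n)).size (tst C ν (sub (C.gate k))) +
            (univ.sup fun a : Fin 1 → Bool => (P (Function.update ν k (!(a 0)))).load (ftTests _)) ≤ _
          have e1 : (univ.sup fun a : Fin 1 → Bool =>
              (P (Function.update ν k (!(a 0)))).load (ftTests _)) ≤
              (cnt C (k + 1) r + 1) * 2 ^ Δ := Finset.sup_le (fun a _ => p2 _)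
          have e2 : (ftTests (Fin n)).size (tst C ν (sub (C.gate k))) ≤ 2 ^ Δ := by
            refine (tst_size C ν _).trans (Nat.pow_le_pow_right (by norm_num) ?_)
            rw [dep_eq] at hd
            cases hg : C.gate k with
            | and a b => rw [hg] at hn; exact absurd hn (by simp [Gate.isNot])
            | or a b => rw [hg] at hn; exact absurd hn (by simp [Gate.isNot])
            | not a =>
              rw [hg] at hd
              simp only [Gate.depth] at hd
              show a.depth C.gateDepth ≤ Δ
              cases a with
              | var v => exact Nat.zero_le _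
              | const b => exact Nat.zero_le _
              | gate j =>
                have hjk : j < k := C.gate_lt k (by omega) j (by rw [hg]; simp [Gate.wires, Node.wires])
                simp only [Node.depth, if_pos hjk] at hd
                simp only [Node.depth]
                omega
          rw [cnt_succ, if_pos hn, Finset.sum_const, Finset.card_univ, Fintype.card_fin, one_smul]
          calc _ ≤ 2 ^ Δ + (cnt C (k + 1) r + 1) * 2 ^ Δ := Nat.add_le_add e2 e1
            _ = (1 + cnt C (k + 1) r + 1) * 2 ^ Δ := by ring
        · obtain ⟨b, hb⟩ : ∃ b, b = Prog.ans (ftTests (Fin n))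
            (fun _ : Fin 1 => tst C ν (sub (C.gate k))) x := ⟨_, rfl⟩
          show (P (Function.update ν k (!(Prog.ans (ftTests (Fin n))
            (fun _ : Fin 1 => tst C ν (sub (C.gate k))) x 0)))).Acc (ftTests _) x ↔ _
          rw [← hb]
          refine p3 _ x (fun j hj hjn hjd => ?_)
          by_cases hjk : j = k
          · subst hjk
            rw [Function.update_self]
            have h1 : b 0 = true ↔ (sub (C.gate j)).eval x (fun j => fval C ν x j) = true := by
              rw [hb]
              exact Prog.ans_iff (𝒯 := ftTests (Fin n)) _ x 0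
            have h2 : b 0 = (sub (C.gate j)).eval x (fun j => fval C ν x j) :=
              Bool.eq_iff_iff.mpr h1
            rw [h2, val_eq]
            cases hg : C.gate j with
            | and a b => rw [hg] at hn; exact absurd hn (by simp [Gate.isNot])
            | or a b => rw [hg] at hn; exact absurd hn (by simp [Gate.isNot])
            | not a =>
              simp only [Gate.eval, sub]
              congr 1
              cases a with
              | var v => rfl
              | const b => rfl
              | gate i =>
                have hij : i < j := C.gate_lt j (by omega) i (by rw [hg]; simp [Gate.wires, Node.wires])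
                simp only [Node.eval, if_pos hij]
                refine fval_right C ν x Δ j hx i hij ?_
                rw [dep_eq, hg] at hd
                simp only [Gate.depth, Node.depth, if_pos hij] at hd
                omega
          · rw [Function.update_of_ne hjk]
            exact hx j (by omega) hjn hjd
      · obtain ⟨p, p1, p2, p3⟩ := ih (k + 1) (by omega) ν
        refine ⟨p, p1.trans ?_, p2.trans ?_, fun x hx => p3 x (fun j hj hjn hjd => ?_)⟩
        · rw [cnt_succ]
          exact Nat.pow_le_pow_right (by norm_num) (by omega)
        · rw [cnt_succ]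
          exact Nat.mul_le_mul_right _ (by omega)
        · by_cases hjk : j = k
          · subst hjk
            exact absurd hjd hd
          · exact hx j (by omega) hjn hjd
    · obtain ⟨p, p1, p2, p3⟩ := ih (k + 1) (by omega) ν
      refine ⟨p, p1.trans ?_, p2.trans ?_, fun x hx => p3 x (fun j hj hjn hjd => ?_)⟩
      · rw [cnt_succ]
        exact Nat.pow_le_pow_right (by norm_num) (by omega)
      · rw [cnt_succ]
        exact Nat.mul_le_mul_right _ (by omega)
      · by_cases hjk : j = k
        · subst hjk
          exact absurd hjn hn
        · exact hx j (by omega) hjn hjd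

/-- A circuit with `t` NOT gates is a computation in `t` rounds with one test each. -/
theorem circuit_prog (C : Circuit n) : ∃ p : Prog (FT (Fin n)),
    p.cost ≤ 2 ^ C.nots ∧ p.load (ftTests _) ≤ (C.nots + 1) * 2 ^ C.depth ∧
    ∀ x, p.Acc (ftTests _) x ↔ C.eval x = true := by
  obtain ⟨p, p1, p2, p3⟩ := prog_aux C C.depth le_rfl C.size 0 (by omega) (fun _ => false)
  have e : cnt C 0 C.size = C.nots := by
    unfold cnt Circuit.nots
    congr 1
    rw [Nat.zero_add, Finset.range_eq_Ico]
  rw [e] at p1 p2
  exact ⟨p, p1, p2, fun x => p3 x (fun j hj => absurd hj (by omega))⟩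

end Pool.Agent.W953.FN
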