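import Mathlib
import Pool.Agent.W953.FN.Conv
import Pool.Agent.W953.SP.Hard
import Pool.Agent.W953.SR.Core

/-!
# Formulas with few NOT gates: the lower bound on slices
-/

set_option autoImplicit false

namespace Pool.Agent.W953.FN

open Finset Pool.Agent.H540R2 Pool.Agent.W953.NW Pool.Agent.W953.PT Pool.Agent.W953.SP
  Pool.Agent.W953.SR

theorem hard_form (s t U r : ℕ) (hU : (5 * t + 2) * vno (Nat.log 2 s) ≤ U) :
    ∃ C : Circuit (U + r), C.Monotone ∧ C.size ≤ 3 * U ∧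
      ∀ k ≤ r, ∀ φ : Formula (U + r), φ.nots ≤ t → φ.leaves ≤ s →
        ∃ x, k ≤ wt x ∧ wt x ≤ k + U ∧ φ.eval x ≠ C.eval x := by
  obtain ⟨V, hV⟩ : ∃ V, V = (5 * t + 2) * vno (Nat.log 2 s) := ⟨_, rfl⟩
  rw [← hV] at hU
  obtain ⟨a, rfl⟩ : ∃ a, U = V + a := ⟨U - V, by omega⟩
  have e : V + a + r = V + (a + r) := by omega
  rw [e]
  obtain ⟨C, c1, c2, c3⟩ := Pool.Agent.W953.SR.hard_circ.{0} (Nat.log 2 s) (5 * t + 2) (a + r) V (by omega) hV
  refine ⟨C, c1, c2.trans (by omega), fun k hk φ hn hl => ?_⟩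
  obtain ⟨p, p1, p2, p3⟩ := formula_prog φ
  obtain ⟨x, x1, x2, x3⟩ := c3 _ (ftTests _) (ft_rank _) (ft_mono _) k (by omega) p
    (p1.trans (by omega)) (by
      refine lt_of_le_of_lt p2 ?_
      have h1 : s < 2 ^ (Nat.log 2 s + 1) := Nat.lt_pow_succ_log_self (by norm_num) s
      have h2 : 4 ^ (Nat.log 2 s + 1) = 2 ^ (Nat.log 2 s + 1) * 2 ^ (Nat.log 2 s + 1) := by
        rw [← mul_pow]
        norm_num
      have h3 : 2 ≤ 2 ^ (Nat.log 2 s + 1) := by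
        calc 2 = 2 ^ 1 := rfl
          _ ≤ 2 ^ (Nat.log 2 s + 1) := Nat.pow_le_pow_right (by norm_num) (by omega)
      rw [h2]
      calc 2 * φ.leaves ≤ 2 * s := Nat.mul_le_mul_left _ hl
        _ < 2 * 2 ^ (Nat.log 2 s + 1) := by omega
        _ ≤ 2 ^ (Nat.log 2 s + 1) * 2 ^ (Nat.log 2 s + 1) := Nat.mul_le_mul_right _ h3)
  refine ⟨x, x1, x2.trans (by omega), fun hx => x3 ?_⟩
  rw [p3, hx]

end Pool.Agent.W953.FN
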