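import Mathlib
import Pool.Agent.W953.FN.Defs
import Pool.Agent.W953.PT.Equiv

/-!
# Formulas with few NOT gates on few slices
-/

set_option autoImplicit false

namespace Pool.Agent.W953.FN

open Finset Pool.Agent.H540R2 Pool.Agent.W953.NW

variable {n : ℕ}

/-- the formula of a node -/
def nodeF (u : ℕ → Formula n) : Node n → Formula n
  | .var i => .var i
  | .const b => .const b
  | .gate j => u j

/-- the formula of a gate -/
def gateF (u : ℕ → Formula n) : Gate n → Formula n
  | .and a b => .and (nodeF u a) (nodeF u b)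
  | .or a b => .or (nodeF u a) (nodeF u b)
  | .not a => .not (nodeF u a)

/-- the formula of gate `i` -/
def unf (C : Circuit n) : ℕ → Formula n
  | i => gateF (fun j => if _h : j < i then unf C j else .const false) (C.gate i)
termination_by i => i

lemma unf_eq (C : Circuit n) (i : ℕ) :
    unf C i = gateF (fun j => if j < i then unf C j else .const false) (C.gate i) := by
  rw [unf]
  simp only [dite_eq_ite]

lemma unf_spec (C : Circuit n) (hC : C.Monotone) (i : ℕ) (hi : i < C.size) :
    (unf C i).nots = 0 ∧ (unf C i).depth ≤ C.gateDepth i ∧ ∀ x, (unf C i).eval x = C.val x i := by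
  induction i using Nat.strong_induction_on with
  | _ i ih =>
    have hnode : ∀ a : Node n, (∀ j, a.wires j ≠ 0 → j < i) →
        (nodeF (fun j => if j < i then unf C j else .const false) a).nots = 0 ∧
        (nodeF (fun j => if j < i then unf C j else .const false) a).depth ≤
          a.depth (fun j => if j < i then C.gateDepth j else 0) ∧
        ∀ x, (nodeF (fun j => if j < i then unf C j else .const false) a).eval x =
          a.eval x (fun j => if j < i then C.val x j else false) := by
      intro a ha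
      cases a with
      | var v => exact ⟨rfl, le_rfl, fun _ => rfl⟩
      | const b => exact ⟨rfl, le_rfl, fun _ => rfl⟩
      | gate j =>
        have hj : j < i := ha j (by simp [Node.wires])
        simp only [nodeF, Node.depth, Node.eval, if_pos hj]
        exact ih j hj (by omega)
    have hd : C.gateDepth i = (C.gate i).depth (fun j => if j < i then C.gateDepth j else 0) := by
      rw [Circuit.gateDepth]
      simp only [dite_eq_ite]
    have hv : ∀ x, C.val x i = (C.gate i).eval x (fun j => if j < i then C.val x j else false) := by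
      intro x
      rw [Circuit.val]
      simp only [dite_eq_ite]
    have hw := C.gate_lt i hi
    rw [unf_eq, hd]
    simp only [hv]
    cases hg : C.gate i with
    | and a b =>
      rw [hg] at hw
      obtain ⟨a1, a2, a3⟩ := hnode a (fun j hj => hw j (by simp only [Gate.wires]; omega))
      obtain ⟨b1, b2, b3⟩ := hnode b (fun j hj => hw j (by simp only [Gate.wires]; omega))
      refine ⟨?_, ?_, fun x => ?_⟩
      · simp only [gateF, Formula.nots, a1, b1]
      · simp only [gateF, Formula.depth, Gate.depth]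
        omega
      · simp only [gateF, Formula.eval, Gate.eval, a3, b3]
    | or a b =>
      rw [hg] at hw
      obtain ⟨a1, a2, a3⟩ := hnode a (fun j hj => hw j (by simp only [Gate.wires]; omega))
      obtain ⟨b1, b2, b3⟩ := hnode b (fun j hj => hw j (by simp only [Gate.wires]; omega))
      refine ⟨?_, ?_, fun x => ?_⟩
      · simp only [gateF, Formula.nots, a1, b1]
      · simp only [gateF, Formula.depth, Gate.depth]
        omega
      · simp only [gateF, Formula.eval, Gate.eval, a3, b3]
    | not a => exact absurd hg (hC i hi a)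

/-- From circuits without NOT gates to formulas. -/
theorem of_mc {f : BF n} {s d : ℕ} (h : MC f s d) : ∃ φ : Formula n, φ.nots = 0 ∧ φ.depth ≤ d ∧
    ∀ x, φ.eval x = f x := by
  obtain ⟨C, h1, h2, h3, h4⟩ := h
  cases ho : C.out with
  | var v =>
    exact ⟨.var v, rfl, Nat.zero_le _, fun x => by rw [← h4]; unfold Circuit.eval; rw [ho]; rfl⟩
  | const b =>
    exact ⟨.const b, rfl, Nat.zero_le _, fun x => by rw [← h4]; unfold Circuit.eval; rw [ho]; rfl⟩
  | gate j =>
    have hj : j < C.size := C.out_lt j (by rw [ho]; simp [Node.wires])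
    obtain ⟨g1, g2, g3⟩ := unf_spec C h1 j hj
    refine ⟨unf C j, g1, g2.trans ?_, fun x => ?_⟩
    · have : C.depth = C.gateDepth j := by
        unfold Circuit.depth
        rw [ho]
        rfl
      omega
    · rw [g3, ← h4]
      unfold Circuit.eval
      rw [ho]
      rfl

/-- **Formulas on windows of slices.** -/
theorem form_windows {f : BF n} (hf : ∀ x y : Fin n → Bool, (∀ i, x i ≤ y i) → f x ≤ f y)
    {s d : ℕ} (h : LC f s d) (w : ℕ) (m : ℕ) : 1 ≤ m → ∀ k, ∃ φ : Formula n, φ.nots ≤ m - 1 ∧
      φ.depth ≤ d + (w + 1) * (tde n + 1) + 3 * Nat.clog 2 m ∧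
      ∀ x, k ≤ wt x → wt x < k + m * (w + 1) → φ.eval x = f x := by
  induction m using Nat.strong_induction_on with
  | _ m ih =>
    intro hm k
    by_cases h1 : m = 1
    · subst h1
      obtain ⟨g, g1, g2⟩ := window hf h k w
      obtain ⟨φ, p1, p2, p3⟩ := of_mc g1
      refine ⟨φ, by omega, by omega, fun x hx1 hx2 => ?_⟩
      rw [p3]
      exact g2 x hx1 (by omega)
    · obtain ⟨a, ha⟩ : ∃ a, a = (m + 1) / 2 := ⟨_, rfl⟩
      obtain ⟨b, hb⟩ : ∃ b, b = m / 2 := ⟨_, rfl⟩
      have hab : a + b = m := by omega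
      have hb1 : 1 ≤ b := by omega
      have hba : b ≤ a := by omega
      have ham : a < m := by omega
      have hc : Nat.clog 2 m = Nat.clog 2 a + 1 := by
        rw [Nat.clog_of_two_le (by norm_num) (by omega), ha]
        rfl
      have hcb : Nat.clog 2 b ≤ Nat.clog 2 a := Nat.clog_mono_right 2 hba
      obtain ⟨φ, p1, p2, p3⟩ := ih a ham (by omega) k
      obtain ⟨ψ, q1, q2, q3⟩ := ih b (by omega) hb1 (k + a * (w + 1))
      obtain ⟨τ, t1, t2, t3⟩ := of_mc (thr_mc (n := n) (k + a * (w + 1)))
      have ht : τ.depth + 1 ≤ d + (w + 1) * (tde n + 1) := by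
        have e : tde n = 12 * Nat.log 2 n + 18 := rfl
        have e2 : 1 * (tde n + 1) ≤ (w + 1) * (tde n + 1) := Nat.mul_le_mul_right _ (by omega)
        omega
      refine ⟨.or (.and (.not τ) φ) (.and τ ψ), ?_, ?_, fun x hx1 hx2 => ?_⟩
      · simp only [Formula.nots]
        omega
      · simp only [Formula.depth]
        omega
      · simp only [Formula.eval]
        rw [t3]
        unfold thr
        by_cases hx : k + a * (w + 1) ≤ wt x
        · rw [decide_eq_true hx]
          simp only [Bool.not_true, Bool.false_and, Bool.false_or, Bool.true_and]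
          refine q3 x hx ?_
          have : m * (w + 1) = a * (w + 1) + b * (w + 1) := by rw [← hab]; ring
          omega
        · rw [decide_eq_false hx]
          simp only [Bool.not_false, Bool.true_and, Bool.false_and, Bool.or_false]
          exact p3 x hx1 (by omega)

/-- From formulas to circuits. -/
theorem toCircuit (φ : Formula n) : ∀ P : Circuit n, ∃ P' : Circuit n,
    Stp P P' (2 ^ φ.depth - 1) φ.nots ∧ Av P' φ.eval φ.depth := by
  induction φ with
  | var i => exact fun P => ⟨P, Stp.refl P _ _, Av.var P i _⟩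
  | const b => exact fun P => ⟨P, Stp.refl P _ _, Av.const P b _⟩
  | and φ ψ ih1 ih2 =>
    intro P
    obtain ⟨P1, s1, a1⟩ := ih1 P
    obtain ⟨P2, s2, a2⟩ := ih2 P1
    obtain ⟨P3, s3, a3⟩ := Av.and (a1.ext s2.1) a2
    refine ⟨P3, ((s1.trans s2).trans s3).le ?_ ?_, a3.mono (le_of_eq ?_)⟩
    · simp only [Formula.depth]
      have e1 : 2 ^ φ.depth ≤ 2 ^ max φ.depth ψ.depth :=
        Nat.pow_le_pow_right (by norm_num) (le_max_left _ _)
      have e2 : 2 ^ ψ.depth ≤ 2 ^ max φ.depth ψ.depth :=
        Nat.pow_le_pow_right (by norm_num) (le_max_right _ _)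
      have e3 : 1 ≤ 2 ^ φ.depth := Nat.one_le_two_pow
      have e4 : 1 ≤ 2 ^ ψ.depth := Nat.one_le_two_pow
      rw [pow_succ]
      omega
    · simp only [Formula.nots]
      omega
    · simp only [Formula.depth]
  | or φ ψ ih1 ih2 =>
    intro P
    obtain ⟨P1, s1, a1⟩ := ih1 P
    obtain ⟨P2, s2, a2⟩ := ih2 P1
    obtain ⟨P3, s3, a3⟩ := Av.or (a1.ext s2.1) a2
    refine ⟨P3, ((s1.trans s2).trans s3).le ?_ ?_, a3.mono (le_of_eq ?_)⟩
    · simp only [Formula.depth]
      have e1 : 2 ^ φ.depth ≤ 2 ^ max φ.depth ψ.depth :=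
        Nat.pow_le_pow_right (by norm_num) (le_max_left _ _)
      have e2 : 2 ^ ψ.depth ≤ 2 ^ max φ.depth ψ.depth :=
        Nat.pow_le_pow_right (by norm_num) (le_max_right _ _)
      have e3 : 1 ≤ 2 ^ φ.depth := Nat.one_le_two_pow
      have e4 : 1 ≤ 2 ^ ψ.depth := Nat.one_le_two_pow
      rw [pow_succ]
      omega
    · simp only [Formula.nots]
      omega
    · simp only [Formula.depth]
  | not φ ih =>
    intro P
    obtain ⟨P1, s1, a1⟩ := ih P
    obtain ⟨P2, s2, a2⟩ := Av.not a1
    refine ⟨P2, (s1.trans s2).le ?_ ?_, a2.mono (le_of_eq ?_)⟩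
    · simp only [Formula.depth]
      have e3 : 1 ≤ 2 ^ φ.depth := Nat.one_le_two_pow
      rw [pow_succ]
      omega
    · simp only [Formula.nots]
      omega
    · simp only [Formula.depth]

theorem circuit_of (φ : Formula n) : ∃ C : Circuit n, C.size ≤ 2 ^ φ.depth ∧ C.depth ≤ φ.depth ∧
    ∀ x, C.eval x = φ.eval x := by
  obtain ⟨P, s, a⟩ := toCircuit φ (Circuit.empty n)
  obtain ⟨C, c1, -, c2, c3⟩ := a.circuit
  refine ⟨C, ?_, c2, c3⟩
  have h1 := s.2.1
  have h2 : (Circuit.empty n).size = 0 := rfl
  have h3 : 1 ≤ 2 ^ φ.depth := Nat.one_le_two_pow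
  omega

end Pool.Agent.W953.FN
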