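import Mathlib
import Pool.Agent.W953.FN.Win

/-!
# Equivalent forms of Q1 for formulas with few NOT gates
-/

set_option autoImplicit false

namespace Pool.Agent.W953.FN

open Finset Pool.Agent.H540R2 Pool.Agent.W953.NW

/-- formulas with `t` NOT gates for `t + 1` windows -/
def FMany (i w : ℕ) : Prop :=
  ∃ c : ℕ, ∀ (S n : ℕ) (C : Circuit n), 2 ≤ S → n ≤ S → C.size ≤ S → MonFun C →
    ∀ k t : ℕ, ∃ φ : Formula n, φ.nots ≤ t ∧ φ.depth ≤ c * Nat.log 2 S ^ i ∧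
      ∀ x, k ≤ wt x → wt x < k + (t + 1) * (w * Nat.log 2 n ^ (i - 1) + 1) → φ.eval x = C.eval x

/-- formulas with few NOT gates for all inputs -/
def FNots (i w : ℕ) : Prop :=
  ∃ c : ℕ, ∀ (S n : ℕ) (C : Circuit n), 2 ≤ S → n ≤ S → C.size ≤ S → MonFun C →
    ∃ φ : Formula n, φ.nots ≤ n / (w * Nat.log 2 n ^ (i - 1) + 1) ∧
      φ.depth ≤ c * Nat.log 2 S ^ i ∧ ∀ x, φ.eval x = C.eval x

/-- formulas for some slices -/
def FSome (i : ℕ) (t w : ℕ → ℕ) : Prop :=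
  ∃ c : ℕ, ∀ (S n : ℕ) (C : Circuit n), 2 ≤ S → n ≤ S → C.size ≤ S → C.Monotone →
    ∀ k : ℕ, ∃ φ : Formula n, φ.nots ≤ t n ∧ φ.depth ≤ c * Nat.log 2 S ^ i ∧
      ∀ x, k ≤ wt x → wt x ≤ k + w n → φ.eval x = C.eval x

theorem core_of {i : ℕ} (hi : 1 ≤ i) (h : PolylogDepth i) (w : ℕ) :
    ∃ c : ℕ, ∀ (S n : ℕ) (C : Circuit n), 2 ≤ S → n ≤ S → C.size ≤ S → MonFun C →
    ∀ k m : ℕ, 1 ≤ m → m ≤ n + 1 → ∃ φ : Formula n, φ.nots ≤ m - 1 ∧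
      φ.depth ≤ c * Nat.log 2 S ^ i ∧
      ∀ x, k ≤ wt x → wt x < k + m * (w * Nat.log 2 n ^ (i - 1) + 1) → φ.eval x = C.eval x := by
  obtain ⟨c, hc⟩ := h
  refine ⟨c + 31 * (w + 1) + 6, fun S n C hS hn hCS hC k m hm hmn => ?_⟩
  obtain ⟨C₁, h1, h2, h3⟩ := hc n (pad C S hCS) hS
  have hsz : (pad C S hCS).size = S := rfl
  rw [hsz] at h2 h3
  have h4 : ∀ x, C₁.eval x = C.eval x := fun x => by
    rw [← h1 x, pad_eval]
  have hmon : ∀ x y : Fin n → Bool, (∀ i, x i ≤ y i) → C₁.eval x ≤ C₁.eval y := by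
    intro x y hxy
    rw [h4, h4]
    exact hC x y hxy
  obtain ⟨φ, p1, p2, p3⟩ := form_windows hmon (LC.of_circuit C₁) (w * Nat.log 2 n ^ (i - 1))
    m hm k
  have hlog : 1 ≤ Nat.log 2 S := Nat.log_pos (by norm_num) hS
  have hlogn : Nat.log 2 n ≤ Nat.log 2 S := Nat.log_mono_right hn
  have hW : w * Nat.log 2 n ^ (i - 1) ≤ w * Nat.log 2 S ^ (i - 1) :=
    Nat.mul_le_mul_left _ (Nat.pow_le_pow_left hlogn _)
  refine ⟨φ, p1, ?_, fun x hx1 hx2 => by rw [p3 x hx1 hx2, h4]⟩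
  have h5 : w * Nat.log 2 n ^ (i - 1) + 1 ≤ (w + 1) * Nat.log 2 S ^ (i - 1) := by
    have := lam_pos hS (i - 1)
    have e : (w + 1) * Nat.log 2 S ^ (i - 1) = w * Nat.log 2 S ^ (i - 1) +
      Nat.log 2 S ^ (i - 1) := by ring
    omega
  have h6 : (w * Nat.log 2 n ^ (i - 1) + 1) * (tde n + 1) ≤
      31 * (w + 1) * Nat.log 2 S ^ i := by
    calc (w * Nat.log 2 n ^ (i - 1) + 1) * (tde n + 1) ≤
        (w + 1) * Nat.log 2 S ^ (i - 1) * (31 * Nat.log 2 S) :=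
          Nat.mul_le_mul h5 (tde_le hS hn)
      _ = 31 * (w + 1) * (Nat.log 2 S * Nat.log 2 S ^ (i - 1)) := by ring
      _ = 31 * (w + 1) * Nat.log 2 S ^ i := by
        rw [← pow_succ', show i - 1 + 1 = i by omega]
  have h7 : Nat.clog 2 m ≤ 2 * Nat.log 2 S := by
    have e1 : m ≤ 2 ^ (Nat.log 2 S + 1) := by
      have : S < 2 ^ (Nat.log 2 S + 1) := Nat.lt_pow_succ_log_self (by norm_num) S
      omega
    have e2 : Nat.clog 2 m ≤ Nat.log 2 S + 1 := Nat.clog_le_of_le_pow e1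
    omega
  have h8 : Nat.log 2 S ≤ Nat.log 2 S ^ i := lam_le hS hi
  have h9 : (c + 31 * (w + 1) + 6) * Nat.log 2 S ^ i =
      c * Nat.log 2 S ^ i + 31 * (w + 1) * Nat.log 2 S ^ i + 6 * Nat.log 2 S ^ i := by ring
  rw [h9]
  omega

theorem many_of {i : ℕ} (hi : 1 ≤ i) (h : PolylogDepth i) (w : ℕ) : FMany i w := by
  obtain ⟨c, hc⟩ := core_of hi h w
  refine ⟨c, fun S n C hS hn hCS hC k t => ?_⟩
  by_cases ht : t ≤ n
  · obtain ⟨φ, p1, p2, p3⟩ := hc S n C hS hn hCS hC k (t + 1) (by omega) (by omega)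
    exact ⟨φ, by omega, p2, p3⟩
  · obtain ⟨φ, p1, p2, p3⟩ := hc S n C hS hn hCS hC k (n + 1) (by omega) le_rfl
    refine ⟨φ, by omega, p2, fun x hx1 _ => p3 x hx1 ?_⟩
    have h1 := wt_le x
    have h2 : (n + 1) * 1 ≤ (n + 1) * (w * Nat.log 2 n ^ (i - 1) + 1) :=
      Nat.mul_le_mul_left _ (by omega)
    omega

theorem nots_of {i : ℕ} (hi : 1 ≤ i) (h : PolylogDepth i) (w : ℕ) : FNots i w := by
  obtain ⟨c, hc⟩ := core_of hi h w
  refine ⟨c, fun S n C hS hn hCS hC => ?_⟩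
  obtain ⟨W, hW⟩ : ∃ W, W = w * Nat.log 2 n ^ (i - 1) + 1 := ⟨_, rfl⟩
  obtain ⟨q, hq⟩ : ∃ q, q = n / W := ⟨_, rfl⟩
  have hqn : q ≤ n := by
    rw [hq]
    exact Nat.div_le_self n W
  have hlt : n < (q + 1) * W := by
    have h1 := Nat.div_add_mod n W
    have h2 : n % W < W := Nat.mod_lt _ (by omega)
    rw [← hq] at h1
    have h3 : (q + 1) * W = W * q + W := by ring
    omega
  obtain ⟨φ, p1, p2, p3⟩ := hc S n C hS hn hCS hC 0 (q + 1) (by omega) (by omega)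
  refine ⟨φ, ?_, p2, fun x => p3 x (Nat.zero_le _) ?_⟩
  · rw [← hW, ← hq]
    omega
  · rw [← hW, Nat.zero_add]
    exact lt_of_le_of_lt (wt_le x) hlt

theorem some_of_many' {i w : ℕ} (h : FMany i w) : FSome i (fun _ => 0) (fun _ => 0) := by
  obtain ⟨c, hc⟩ := h
  refine ⟨c, fun S n C hS hn hCS hC k => ?_⟩
  obtain ⟨φ, h1, h2, h3⟩ := hc S n C hS hn hCS (monFun_of_monotone hC) k 0
  refine ⟨φ, h1, h2, fun x hx1 hx2 => h3 x hx1 ?_⟩
  have h5 : wt x ≤ k + 0 := hx2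
  rw [Nat.zero_add, Nat.one_mul]
  omega

theorem some_of_nots' {i w : ℕ} (h : FNots i w) : FSome i (fun n => n) (fun n => n) := by
  obtain ⟨c, hc⟩ := h
  refine ⟨c, fun S n C hS hn hCS hC k => ?_⟩
  obtain ⟨φ, h1, h2, h3⟩ := hc S n C hS hn hCS (monFun_of_monotone hC)
  exact ⟨φ, h1.trans (Nat.div_le_self _ _), h2, fun x _ _ => h3 x⟩

theorem polylog_of_some' {i : ℕ} (hi : 1 ≤ i) {t w : ℕ → ℕ} (h : FSome i t w) :
    PolylogDepth i := by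
  apply polylogDepth_of_slice hi
  obtain ⟨c, hc⟩ := h
  refine ⟨c, fun S n C hS hn hCS hC k => ?_⟩
  obtain ⟨φ, -, h2, h3⟩ := hc S n C hS hn hCS hC k
  obtain ⟨C', e1, e2, e3⟩ := circuit_of φ
  exact ⟨C', e2.trans h2, e1.trans (Nat.pow_le_pow_right (by norm_num) h2),
    fun x hx => by rw [e3]; exact h3 x hx.ge (by omega)⟩

end Pool.Agent.W953.FN
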